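import Mathlib

set_option autoImplicit false

namespace Pool.Agent.Results.MP_4101c8_co.SumProductDisproof

open SimpleGraph

/-- `S` is a total dominating set of `G`: every vertex has a neighbour in `S`. -/
def IsTotalDominating {V : Type} (G : SimpleGraph V) (S : Finset V) : Prop :=
  ∀ v : V, ∃ u ∈ S, G.Adj v u

/-- The total domination number: the least cardinality of a total dominating set. -/
noncomputable def gammaT {V : Type} (G : SimpleGraph V) : ℕ :=
  sInf {k : ℕ | ∃ S : Finset V, IsTotalDominating G S ∧ S.card = k}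

open Classical in
/-- The smaller of the minimum degrees of `G` and its complement. -/
noncomputable def deltaStar {V : Type} [Fintype V] (G : SimpleGraph V) : ℕ :=
  min G.minDegree Gᶜ.minDegree

/-- incidence of the complement of the Fano plane: point `i`, line `j` -/
def inc (i j : Fin 7) : Bool := !(j - i == 0 || j - i == 1 || j - i == 3)

/-- copy number, side, index -/
abbrev Vtx (k : ℕ) : Type := Fin k × Bool × Fin 7

def adjB : Bool × Fin 7 → Bool × Fin 7 → Bool
  | (false, i), (true, j) => inc i j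
  | (true, j), (false, i) => inc i j
  | _, _ => false

lemma adjB_symm : ∀ a b : Bool × Fin 7, adjB a b = adjB b a := by decide

lemma adjB_irrefl : ∀ a : Bool × Fin 7, adjB a a = false := by decide

/-- `k` disjoint copies of the bipartite complement of the Heawood graph -/
def copies (k : ℕ) : SimpleGraph (Vtx k) where
  Adj u v := u.1 = v.1 ∧ adjB u.2 v.2 = true
  symm := by
    constructor
    rintro u v ⟨h1, h2⟩
    exact ⟨h1.symm, by rw [adjB_symm]; exact h2⟩
  loopless := by
    constructor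
    rintro u ⟨_, h⟩
    rw [adjB_irrefl] at h
    exact Bool.false_ne_true h

lemma deg_aux : ∀ a : Bool × Fin 7, (Finset.univ.filter (fun b => adjB a b = true)).card = 4 := by
  decide

lemma two_miss : ∀ (c : Bool) (a b : Fin 7), ∃ j : Fin 7,
    adjB (!c, j) (c, a) = false ∧ adjB (!c, j) (c, b) = false := by decide

lemma same_side : ∀ (c : Bool) (a b : Fin 7), adjB (c, a) (c, b) = false := by decide

open Classical in
lemma deg_copies (k : ℕ) (v : Vtx k) : (copies k).degree v = 4 := by
  obtain ⟨i, a⟩ := v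
  rw [← deg_aux a, ← card_neighborFinset_eq_degree]
  refine Finset.card_bij (fun w _ => w.2) ?_ ?_ ?_
  · intro w hw
    rw [mem_neighborFinset] at hw
    rw [Finset.mem_filter]
    exact ⟨Finset.mem_univ _, hw.2⟩
  · intro w hw w' hw' h
    rw [mem_neighborFinset] at hw hw'
    exact Prod.ext (hw.1.symm.trans hw'.1) h
  · intro b hb
    rw [Finset.mem_filter] at hb
    refine ⟨(i, b), ?_, rfl⟩
    rw [mem_neighborFinset]
    exact ⟨rfl, hb.2⟩

/-- total domination needs three vertices on each side of each copy -/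
lemma lower_copies (k : ℕ) (S : Finset (Vtx k)) (hS : IsTotalDominating (copies k) S) :
    6 * k ≤ S.card := by
  classical
  have h1 : S.card = ∑ p : Fin k × Bool,
      (Finset.univ.filter (fun a : Fin 7 => (p.1, p.2, a) ∈ S)).card := by
    rw [← Finset.card_sigma]
    refine Finset.card_bij (fun v _ => ⟨(v.1, v.2.1), v.2.2⟩) ?_ ?_ ?_
    · rintro ⟨i, c, a⟩ hv
      simpa using hv
    · rintro ⟨i, c, a⟩ _ ⟨i', c', a'⟩ _ h
      simp only [Sigma.mk.injEq, Prod.mk.injEq, heq_eq_eq] at h
      obtain ⟨⟨rfl, rfl⟩, rfl⟩ := h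
      rfl
    · rintro ⟨⟨i, c⟩, a⟩ h
      simp only [Finset.mem_sigma, Finset.mem_univ, Finset.mem_filter, true_and] at h
      exact ⟨(i, c, a), h, rfl⟩
  have h2 : ∀ p : Fin k × Bool,
      3 ≤ (Finset.univ.filter (fun a : Fin 7 => (p.1, p.2, a) ∈ S)).card := by
    rintro ⟨i, c⟩
    by_contra hlt
    push Not at hlt
    have hle : (Finset.univ.filter (fun a : Fin 7 => (i, c, a) ∈ S)).card ≤ 2 :=
      Nat.lt_succ_iff.1 hlt
    obtain ⟨a, b, hab⟩ : ∃ a b : Fin 7, ∀ x : Fin 7, (i, c, x) ∈ S → x = a ∨ x = b := by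
      rcases Nat.lt_or_ge (Finset.univ.filter (fun a : Fin 7 => (i, c, a) ∈ S)).card 2 with h | h
      · rcases Nat.lt_or_ge (Finset.univ.filter (fun a : Fin 7 => (i, c, a) ∈ S)).card 1
          with h' | h'
        · have h0 : (Finset.univ.filter (fun a : Fin 7 => (i, c, a) ∈ S)) = ∅ := by
            rw [← Finset.card_eq_zero]; omega
          refine ⟨0, 0, fun x hx => ?_⟩
          have : x ∈ (Finset.univ.filter (fun a : Fin 7 => (i, c, a) ∈ S)) := by simp [hx]
          rw [h0] at this
          simp at this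
        · obtain ⟨a, ha⟩ := Finset.card_eq_one.1 (show (Finset.univ.filter
            (fun a : Fin 7 => (i, c, a) ∈ S)).card = 1 by omega)
          refine ⟨a, a, fun x hx => ?_⟩
          have : x ∈ (Finset.univ.filter (fun a : Fin 7 => (i, c, a) ∈ S)) := by simp [hx]
          rw [ha, Finset.mem_singleton] at this
          exact Or.inl this
      · obtain ⟨a, b, _, hab⟩ := Finset.card_eq_two.1 (show (Finset.univ.filter
          (fun a : Fin 7 => (i, c, a) ∈ S)).card = 2 by omega)
        refine ⟨a, b, fun x hx => ?_⟩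
        have : x ∈ (Finset.univ.filter (fun a : Fin 7 => (i, c, a) ∈ S)) := by simp [hx]
        rw [hab, Finset.mem_insert, Finset.mem_singleton] at this
        exact this
    obtain ⟨j, hj1, hj2⟩ := two_miss c a b
    obtain ⟨⟨i', c', x⟩, hu, hadj⟩ := hS (i, !c, j)
    have hi : i = i' := hadj.1
    subst hi
    have had : adjB (!c, j) (c', x) = true := hadj.2
    have hc : c' = c := by
      by_contra hne
      have : c' = !c := by cases c <;> cases c' <;> simp_all
      rw [this, same_side] at had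
      exact Bool.false_ne_true had
    subst hc
    rcases hab x hu with rfl | rfl
    · rw [hj1] at had; exact Bool.false_ne_true had
    · rw [hj2] at had; exact Bool.false_ne_true had
  rw [h1]
  calc 6 * k = ∑ _p : Fin k × Bool, 3 := by
        simp; ring
    _ ≤ _ := Finset.sum_le_sum fun p _ => h2 p

lemma compl_adj_of_ne_copy {k : ℕ} {u v : Vtx k} (h : u.1 ≠ v.1) : (copies k)ᶜ.Adj u v := by
  rw [compl_adj]
  exact ⟨fun e => h (by rw [e]), fun e => h e.1⟩

lemma compl_connected (k : ℕ) (hk : 2 ≤ k) : ((copies k)ᶜ).Connected := by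
  have : Nonempty (Vtx k) := ⟨(⟨0, by omega⟩, false, 0)⟩
  refine ⟨fun u v => ?_⟩
  by_cases h : u.1 = v.1
  · obtain ⟨i, hi⟩ : ∃ i : Fin k, i ≠ u.1 := by
      have : Nontrivial (Fin k) := Fin.nontrivial_iff_two_le.2 hk
      exact exists_ne u.1
    have h1 : (copies k)ᶜ.Adj u (i, false, 0) := compl_adj_of_ne_copy (Ne.symm hi)
    have h2 : (copies k)ᶜ.Adj (i, false, 0) v := compl_adj_of_ne_copy (by rw [← h]; exact hi)
    exact h1.reachable.trans h2.reachable
  · exact (compl_adj_of_ne_copy h).reachable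

lemma gammaT_ge {V : Type} [Fintype V] (G : SimpleGraph V) (m : ℕ)
    (hne : ∀ v, ∃ u, G.Adj v u) (h : ∀ S, IsTotalDominating G S → m ≤ S.card) :
    m ≤ gammaT G := by
  have hset : {k : ℕ | ∃ S : Finset V, IsTotalDominating G S ∧ S.card = k}.Nonempty := by
    refine ⟨Finset.univ.card, Finset.univ, fun v => ?_, rfl⟩
    obtain ⟨u, hu⟩ := hne v
    exact ⟨u, Finset.mem_univ _, hu⟩
  obtain ⟨S, hS, hc⟩ := Nat.sInf_mem hset
  have := h S hS
  rw [hc] at this
  exact this

lemma two_le {V : Type} [Nonempty V] (G : SimpleGraph V) (S : Finset V)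
    (hS : IsTotalDominating G S) : 2 ≤ S.card := by
  obtain ⟨v⟩ := ‹Nonempty V›
  obtain ⟨u, hu, _⟩ := hS v
  obtain ⟨w, hw, hadj⟩ := hS u
  exact Finset.one_lt_card.2 ⟨u, hu, w, hw, hadj.ne⟩

open Classical in
lemma card_Vtx (k : ℕ) : Fintype.card (Vtx k) = 14 * k := by
  simp [Vtx]; ring

lemma minDegree_same {V : Type} [Fintype V] (G H : SimpleGraph V) (i1 : DecidableRel G.Adj)
    (i2 : DecidableRel H.Adj) (h : G = H) : @minDegree V G _ i1 = @minDegree V H _ i2 := by
  subst h
  rw [Subsingleton.elim i1 i2]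

open Classical in
lemma minDegree_copies (k : ℕ) (hk : 2 ≤ k) : (copies k).minDegree = 4 := by
  have : Nonempty (Vtx k) := ⟨(⟨0, by omega⟩, false, 0)⟩
  apply le_antisymm
  · obtain ⟨v⟩ := this
    refine le_trans (minDegree_le_degree _ v) ?_
    rw [deg_copies]
  · refine le_minDegree_of_forall_le_degree _ _ fun v => ?_
    rw [deg_copies]

open Classical in
lemma minDegree_compl_copies (k : ℕ) (hk : 2 ≤ k) : 4 ≤ ((copies k)ᶜ).minDegree := by
  have : Nonempty (Vtx k) := ⟨(⟨0, by omega⟩, false, 0)⟩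
  refine le_minDegree_of_forall_le_degree _ _ fun v => ?_
  have := degree_compl (copies k) v
  rw [this, deg_copies, card_Vtx]
  omega

lemma deltaStar_compl (k : ℕ) (hk : 2 ≤ k) : deltaStar (copies k)ᶜ = 4 := by
  unfold deltaStar
  have h2 := minDegree_compl_copies k hk
  refine Eq.trans ?_ (min_eq_right h2)
  congr 1
  · exact minDegree_same _ _ _ _ rfl
  · exact (minDegree_same _ _ _ _ (compl_compl _)).trans (minDegree_copies k hk)

/-- Both parts of the conjecture fail: for infinitely many orders `n` there is a connected graph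
`G` with `δ*(G) = 4`, `γ_t(G) + γ_t(Ḡ) > 2n/5 + 2` and `γ_t(G) γ_t(Ḡ) > 4n/5`. -/
theorem result : ∀ n₀ : ℕ, ∃ (V : Type) (_ : Fintype V) (G : SimpleGraph V),
    n₀ ≤ Fintype.card V ∧ G.Connected ∧ deltaStar G = 4 ∧
      (2 * (Fintype.card V : ℝ) / 5 + 2 < (gammaT G : ℝ) + (gammaT Gᶜ : ℝ)) ∧
      (4 * (Fintype.card V : ℝ) / 5 < (gammaT G : ℝ) * (gammaT Gᶜ : ℝ)) := by
  classical
  intro n₀
  have hk : 2 ≤ n₀ + 2 := by omega
  have hne : Nonempty (Vtx (n₀ + 2)) := ⟨(⟨0, by omega⟩, false, 0)⟩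
  refine ⟨Vtx (n₀ + 2), inferInstance, (copies (n₀ + 2))ᶜ, ?_, compl_connected _ hk,
    deltaStar_compl _ hk, ?_⟩
  · rw [card_Vtx]; omega
  · have h1 : 2 ≤ gammaT (copies (n₀ + 2))ᶜ := by
      apply gammaT_ge
      · intro v
        have : Nontrivial (Fin (n₀ + 2)) := Fin.nontrivial_iff_two_le.2 hk
        obtain ⟨i, hi⟩ := exists_ne v.1
        exact ⟨(i, false, 0), compl_adj_of_ne_copy (Ne.symm hi)⟩
      · intro S hS
        exact two_le _ S hS
    have h2 : 6 * (n₀ + 2) ≤ gammaT (copies (n₀ + 2))ᶜᶜ := by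
      have e : (copies (n₀ + 2))ᶜᶜ = copies (n₀ + 2) := compl_compl _
      rw [e]
      apply gammaT_ge
      · intro v
        have h := deg_copies (n₀ + 2) v
        have h0 : 0 < (copies (n₀ + 2)).degree v := by rw [h]; norm_num
        obtain ⟨w, hw⟩ := (degree_pos_iff_exists_adj _ _).1 h0
        exact ⟨w, hw⟩
      · intro S hS
        exact lower_copies _ S hS
    have h1' : (2 : ℝ) ≤ (gammaT (copies (n₀ + 2))ᶜ : ℝ) := by exact_mod_cast h1
    have h2' : (6 : ℝ) * ((n₀ : ℝ) + 2) ≤ (gammaT (copies (n₀ + 2))ᶜᶜ : ℝ) := by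
      exact_mod_cast h2
    have hn : (0 : ℝ) ≤ (n₀ : ℝ) := Nat.cast_nonneg _
    rw [card_Vtx]
    push_cast
    constructor
    · linarith
    · have : (2 : ℝ) * (6 * ((n₀ : ℝ) + 2)) ≤
          (gammaT (copies (n₀ + 2))ᶜ : ℝ) * (gammaT (copies (n₀ + 2))ᶜᶜ : ℝ) :=
        mul_le_mul h1' h2' (by positivity) (by positivity)
      linarith

end Pool.Agent.Results.MP_4101c8_co.SumProductDisproof
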